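import Mathlib

/-!
Regular Toeplitz-type extensions of the dyadic odometer.
-/

set_option autoImplicit false

open Filter Topology MeasureTheory Set
open scoped symmDiff ENNReal

namespace Pool.Agent.MP_1dc7bd_an

abbrev G : Type := ℤ_[2]

noncomputable instance instMeasG : MeasurableSpace G := borel G
instance instBorelG : BorelSpace G := ⟨rfl⟩

noncomputable def H : Measure G := Measure.addHaarMeasure ⊤

instance : IsProbabilityMeasure H :=
  ⟨by simpa [H] using (Measure.addHaarMeasure_self (G := G) (K₀ := ⊤))⟩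

instance : Measure.IsAddHaarMeasure H := by
  unfold H; infer_instance

lemma norm_two_lt : ‖(2 : G)‖ < 1 := by
  have := PadicInt.norm_p (p := 2)
  simp only [Nat.cast_ofNat] at this
  rw [this]; norm_num

lemma tendsto_two_pow : Tendsto (fun k : ℕ => (2 : G) ^ k) atTop (𝓝 0) :=
  tendsto_pow_atTop_nhds_zero_of_norm_lt_one norm_two_lt

instance instNeBotG (z : G) : (𝓝[≠] z).NeBot := by
  have h1 : Tendsto (fun k : ℕ => z + (2 : G) ^ k) atTop (𝓝 z) := by
    simpa using tendsto_two_pow.const_add z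
  have h2 : Tendsto (fun k : ℕ => z + (2 : G) ^ k) atTop (𝓝[≠] z) := by
    refine tendsto_nhdsWithin_iff.2 ⟨h1, Eventually.of_forall fun k => ?_⟩
    simp
  exact h2.neBot

abbrev Y : Type := G × (ℤ → Bool)

noncomputable def tau : Y ≃ₜ Y where
  toFun p := (p.1 + 1, fun n => p.2 (n + 1))
  invFun p := (p.1 - 1, fun n => p.2 (n - 1))
  left_inv p := by simp
  right_inv p := by simp
  continuous_toFun := by fun_prop
  continuous_invFun := by fun_prop

/-- Data of a regular Toeplitz coding of the dyadic odometer. -/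
structure Toep where
  f : G → Bool
  meas : Measurable f
  ae : ∀ᵐ z ∂H, ∃ b, ∀ᶠ w in 𝓝 z, f w = b
  pos : H {z | f z = true} ≠ 0

namespace Toep

variable (t : Toep)

noncomputable def psi (z : G) : Y := (z, fun n => t.f (z + n))

def C : Set G := {z | ∃ b, ∀ᶠ w in 𝓝 z, t.f w = b}

lemma isOpen_C : IsOpen t.C := by
  have : t.C = ⋃ b, {z | ∀ᶠ w in 𝓝 z, t.f w = b} := by
    ext z; simp [C]
  rw [this]
  exact isOpen_iUnion fun b => isOpen_setOfPred_eventually_nhds

def G0 : Set G := {z | ∀ n : ℤ, z + n ∈ t.C}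

lemma measurableSet_G0 : MeasurableSet t.G0 := by
  have : t.G0 = ⋂ n : ℤ, (fun z : G => z + n) ⁻¹' t.C := by
    ext z; simp [G0]
  rw [this]
  exact MeasurableSet.iInter fun n =>
    (t.isOpen_C.preimage (by fun_prop)).measurableSet

lemma G0_ae : ∀ᵐ z ∂H, z ∈ t.G0 := by
  unfold G0
  simp only [mem_ofPred_eq]
  rw [ae_all_iff]
  intro n
  exact (measurePreserving_add_right H (n : G)).quasiMeasurePreserving.ae t.ae

lemma dense_G0 : Dense t.G0 := Measure.dense_of_ae t.G0_ae

lemma G0_add_int {z : G} (hz : z ∈ t.G0) (k : ℤ) : z + k ∈ t.G0 := by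
  intro n
  have := hz (k + n)
  simpa [add_assoc] using this

lemma G0_add_nat {z : G} (hz : z ∈ t.G0) (k : ℕ) : z + k ∈ t.G0 := by
  simpa using t.G0_add_int hz k

lemma tau_psi (z : G) : tau (t.psi z) = t.psi (z + 1) := by
  change (z + 1, fun n : ℤ => t.f (z + ((n + 1 : ℤ) : G))) = (z + 1, fun n : ℤ => t.f (z + 1 + n))
  congr 1
  funext n
  congr 1
  push_cast; ring

def Xs : Set Y := closure (t.psi '' t.G0)

lemma Xs_eq : t.Xs = tau ⁻¹' t.Xs := by
  unfold Xs
  rw [Homeomorph.preimage_closure]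
  congr 1
  ext p
  constructor
  · rintro ⟨z, hz, rfl⟩
    exact ⟨z + 1, by simpa using t.G0_add_int hz 1, (t.tau_psi z).symm⟩
  · rintro ⟨z, hz, h⟩
    refine ⟨z - 1, by simpa [sub_eq_add_neg] using t.G0_add_int hz (-1), ?_⟩
    apply tau.injective
    rw [t.tau_psi, ← h]; simp

abbrev X : Type := t.Xs

noncomputable def T : t.X ≃ₜ t.X := tau.sets t.Xs_eq

lemma T_val (x : t.X) : (t.T x : Y) = tau x := rfl

instance : CompactSpace t.X := isCompact_iff_compactSpace.1 isClosed_closure.isCompact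

lemma iter_fst (x : t.X) (n : ℕ) : ((⇑t.T)^[n] x : Y).1 = (x : Y).1 + n := by
  induction n with
  | zero => simp
  | succ n ih =>
    rw [Function.iterate_succ_apply', T_val]
    change ((⇑t.T)^[n] x : Y).1 + 1 = _
    rw [ih]; push_cast; ring

lemma local_lemma {w : G} (hw : w ∈ t.G0) {U : Set Y} (hU : U ∈ 𝓝 (t.psi w)) :
    ∃ V ∈ 𝓝 w, ∀ p ∈ t.Xs, p.1 ∈ V → p ∈ U := by
  have key : Tendsto (fun p : Y => p) (comap Prod.fst (𝓝 w) ⊓ 𝓟 t.Xs) (𝓝 (t.psi w)) := by
    have h1 : Tendsto (fun p : Y => p.1) (comap Prod.fst (𝓝 w) ⊓ 𝓟 t.Xs) (𝓝 w) :=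
      tendsto_comap.mono_left inf_le_left
    have h2 : Tendsto (fun p : Y => p.2) (comap Prod.fst (𝓝 w) ⊓ 𝓟 t.Xs)
        (𝓝 (fun n : ℤ => t.f (w + n))) := by
      rw [tendsto_pi_nhds]
      intro n
      obtain ⟨b, hb⟩ := hw n
      obtain ⟨V', hV'1, hV'2, hV'3⟩ := eventually_nhds_iff.1 hb
      have hb' : t.f (w + n) = b := hV'1 _ hV'3
      have hVo : IsOpen ((fun z : G => z + n) ⁻¹' V') := hV'2.preimage (by fun_prop)
      have hcl : IsClosed {q : Y | q.1 ∈ (fun z : G => z + n) ⁻¹' V' → q.2 n = b} := by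
        have : {q : Y | q.1 ∈ (fun z : G => z + n) ⁻¹' V' → q.2 n = b} =
            (Prod.fst ⁻¹' ((fun z : G => z + n) ⁻¹' V'))ᶜ ∪ {q : Y | q.2 n = b} := by
          ext q; simp only [mem_ofPred_eq, mem_union, mem_compl_iff, mem_preimage]; tauto
        rw [this]
        exact (hVo.preimage continuous_fst).isClosed_compl.union
          (isClosed_eq (by fun_prop) continuous_const)
      have hsub : t.Xs ⊆ {q : Y | q.1 ∈ (fun z : G => z + n) ⁻¹' V' → q.2 n = b} := by
        apply closure_minimal _ hcl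
        rintro _ ⟨z, -, rfl⟩ hz
        exact hV'1 _ hz
      apply tendsto_const_nhds.congr'
      rw [EventuallyEq, eventually_inf_principal]
      have hV : (fun z : G => z + n) ⁻¹' V' ∈ 𝓝 w := hVo.mem_nhds hV'3
      filter_upwards [preimage_mem_comap hV] with q hq hqX
      rw [hb', hsub hqX hq]
    exact h1.prodMk_nhds h2
  have := key hU
  rw [mem_map, mem_inf_principal, mem_comap] at this
  obtain ⟨V, hV, hVU⟩ := this
  exact ⟨V, hV, fun p hp hpV => hVU hpV hp⟩

lemma exists_V (y : t.X) {U : Set t.X} (hU : U ∈ 𝓝 y) :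
    ∃ V : Set G, IsOpen V ∧ V.Nonempty ∧ ∀ p : t.X, (p : Y).1 ∈ V → p ∈ U := by
  obtain ⟨U', hU', hUU'⟩ := (mem_nhds_subtype _ _ _).1 hU
  obtain ⟨U'', h1, h2, h3⟩ := mem_nhds_iff.1 hU'
  obtain ⟨q, hq1, w, hw, rfl⟩ := mem_closure_iff.1 y.2 U'' h2 h3
  obtain ⟨V, hV, hVU⟩ := t.local_lemma hw (h2.mem_nhds hq1)
  refine ⟨interior V, isOpen_interior, ⟨w, mem_interior_iff_mem_nhds.2 hV⟩, fun p hp => ?_⟩
  exact hUU' (h1 (hVU p p.2 (interior_subset hp)))

lemma dense_orbit (x : t.X) : Dense {y : t.X | ∃ n : ℕ, (⇑t.T)^[n] x = y} := by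
  intro y
  rw [mem_closure_iff_nhds]
  intro U hU
  obtain ⟨V, hVo, hVne, hV⟩ := t.exists_V y hU
  have hd : DenseRange (fun n : ℕ => (x : Y).1 + (n : G)) :=
    (Homeomorph.addLeft (x : Y).1).surjective.denseRange.comp PadicInt.denseRange_natCast
      (Homeomorph.addLeft (x : Y).1).continuous
  obtain ⟨n, hn⟩ := hd.exists_mem_open hVo hVne
  exact ⟨(⇑t.T)^[n] x, hV _ (by rw [t.iter_fst]; exact hn), n, rfl⟩

lemma neBot (y : t.X) : (𝓝[≠] y).NeBot := by
  rw [← mem_closure_iff_nhdsWithin_neBot, mem_closure_iff_nhds]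
  intro U hU
  obtain ⟨V, hVo, hVne, hV⟩ := t.exists_V y hU
  obtain ⟨w, hw1, hw2, hw3⟩ := (t.dense_G0.sdiff_singleton (y : Y).1).inter_open_nonempty V hVo hVne
  refine ⟨⟨t.psi w, subset_closure ⟨w, hw2, rfl⟩⟩, hV _ hw1, ?_⟩
  intro h
  apply hw3
  rw [mem_singleton_iff] at h ⊢
  rw [← h]; rfl

open Classical in
noncomputable def retr (z : G) : G := if z ∈ t.G0 then z else t.dense_G0.nonempty.some

lemma retr_mem (z : G) : t.retr z ∈ t.G0 := by
  unfold retr
  split_ifs with h
  · exact h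
  · exact t.dense_G0.nonempty.some_mem

lemma retr_eq {z : G} (hz : z ∈ t.G0) : t.retr z = z := by simp [retr, hz]

lemma measurable_retr : Measurable t.retr := by
  unfold retr
  exact Measurable.ite t.measurableSet_G0 measurable_id measurable_const

lemma measurable_psi : Measurable t.psi := by
  unfold psi
  refine measurable_id.prodMk (measurable_pi_lambda _ fun n => ?_)
  exact t.meas.comp (measurable_add_const _)

noncomputable def pr (z : G) : t.X := ⟨t.psi (t.retr z), subset_closure ⟨_, t.retr_mem z, rfl⟩⟩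

lemma measurable_pr : Measurable t.pr :=
  (t.measurable_psi.comp t.measurable_retr).subtype_mk

lemma pr_val {z : G} (hz : z ∈ t.G0) : (t.pr z : Y) = t.psi z := by
  change t.psi (t.retr z) = _
  rw [t.retr_eq hz]

lemma T_pr {z : G} (hz : z ∈ t.G0) : t.T (t.pr z) = t.pr (z + 1) := by
  apply Subtype.ext
  rw [T_val, t.pr_val hz, t.pr_val (by simpa using t.G0_add_nat hz 1), tau_psi]

lemma iter_pr {z : G} (hz : z ∈ t.G0) (n : ℕ) : (⇑t.T)^[n] (t.pr z) = t.pr (z + n) := by
  induction n with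
  | zero => simp
  | succ n ih =>
    rw [Function.iterate_succ_apply', ih, t.T_pr (t.G0_add_nat hz n)]
    congr 1; push_cast; ring

noncomputable def mu : Measure t.X := Measure.map t.pr H

instance : IsProbabilityMeasure t.mu :=
  Measure.isProbabilityMeasure_map t.measurable_pr.aemeasurable

lemma measurePreserving_T : MeasurePreserving (⇑t.T) t.mu t.mu := by
  have hT : Measurable (⇑t.T) := t.T.continuous.measurable
  refine ⟨hT, ?_⟩
  unfold mu
  rw [Measure.map_map hT t.measurable_pr]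
  have h1 : (⇑t.T ∘ t.pr) =ᵐ[H] (t.pr ∘ fun z : G => z + 1) := by
    filter_upwards [t.G0_ae] with z hz
    exact t.T_pr hz
  rw [Measure.map_congr h1, ← Measure.map_map t.measurable_pr (measurable_add_const _),
    (measurePreserving_add_right H (1 : G)).map_eq]

lemma rigid : ∃ n : ℕ → ℕ, StrictMono n ∧ (∀ k, 0 < n k) ∧
    ∀ B : Set t.X, MeasurableSet B →
      Tendsto (fun k => t.mu (((⇑t.T)^[n k] ⁻¹' B) ∆ B)) atTop (𝓝 0) := by
  refine ⟨fun k => 2 ^ k, fun a b hab => Nat.pow_lt_pow_right (by norm_num) hab,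
    fun k => by positivity, fun B hB => ?_⟩
  have hT : Measurable (⇑t.T) := t.T.continuous.measurable
  let F : C(G, C(G, G)) := ContinuousMap.curry ⟨fun p : G × G => p.2 + p.1, by fun_prop⟩
  have hF : Tendsto (fun k : ℕ => F ((2 : G) ^ k)) atTop (𝓝 (F 0)) :=
    (F.continuous.tendsto 0).comp tendsto_two_pow
  have hmp : ∀ a : G, MeasurePreserving (F a) H H := fun a => measurePreserving_add_right H a
  have h1 := tendsto_measure_symmDiff_preimage_nhds_zero (μ := H) (ν := H) (s := t.pr ⁻¹' B) hF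
    (Eventually.of_forall fun k => hmp _) (hmp 0)
    (t.measurable_pr hB).nullMeasurableSet (measure_ne_top _ _)
  refine h1.congr fun k => ?_
  unfold mu
  rw [Measure.map_apply t.measurable_pr (((hT.iterate _) hB).symmDiff hB)]
  apply measure_congr
  filter_upwards [t.G0_ae] with z hz
  have e1 : (F ((2 : G) ^ k)) z = z + ((2 ^ k : ℕ) : G) := by
    change z + (2 : G) ^ k = _
    push_cast; rfl
  have e2 : (F 0) z = z := by
    change z + 0 = z
    simp
  apply propext
  change z ∈ ((F ((2 : G) ^ k)) ⁻¹' (t.pr ⁻¹' B)) ∆ ((F 0) ⁻¹' (t.pr ⁻¹' B)) ↔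
    z ∈ t.pr ⁻¹' (((⇑t.T)^[2 ^ k] ⁻¹' B) ∆ B)
  simp only [mem_symmDiff, mem_preimage, e1, e2, t.iter_pr hz]

def A : Set t.X := {x | (x : Y).2 0 = true}

lemma isClopen_A : IsClopen t.A := by
  have : t.A = (fun x : t.X => (x : Y).2 0) ⁻¹' {true} := rfl
  rw [this]
  exact (isClopen_discrete _).preimage (by fun_prop)

lemma pr_mem_A {z : G} (hz : z ∈ t.G0) : t.pr z ∈ t.A ↔ t.f z = true := by
  change (t.pr z : Y).2 0 = true ↔ _
  rw [t.pr_val hz]
  simp [psi]

lemma mu_A : t.mu t.A = H {z | t.f z = true} := by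
  unfold mu
  rw [Measure.map_apply t.measurable_pr t.isClopen_A.isOpen.measurableSet]
  apply measure_congr
  filter_upwards [t.G0_ae] with z hz
  exact propext (t.pr_mem_A hz)

lemma mu_A_ne : t.mu t.A ≠ 0 := by rw [mu_A]; exact t.pos

lemma exists_return (x : t.X) (N : ℕ) : ∃ r, N < r ∧ (⇑t.T)^[r] x ∈ t.A := by
  have hne : t.A.Nonempty := nonempty_of_measure_ne_zero t.mu_A_ne
  obtain ⟨y, hy, n, rfl⟩ :=
    (t.dense_orbit ((⇑t.T)^[N + 1] x)).inter_open_nonempty _ t.isClopen_A.isOpen hne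
  refine ⟨n + (N + 1), by omega, ?_⟩
  rw [Function.iterate_add_apply]
  exact hy

open Classical in
noncomputable def S (x : t.X) : t.X := (⇑t.T)^[Nat.find (t.exists_return x 0)] x

/-- the first-return property of a map `S`. -/
def IsRet (S : t.X → t.X) : Prop :=
  ∀ x ∈ t.A, ∃ r : ℕ, 0 < r ∧ S x = (⇑t.T)^[r] x ∧ (⇑t.T)^[r] x ∈ t.A ∧
    ∀ j : ℕ, 0 < j → j < r → (⇑t.T)^[j] x ∉ t.A

lemma isRet_S : t.IsRet t.S := by
  classical
  intro x _
  refine ⟨Nat.find (t.exists_return x 0), (Nat.find_spec (t.exists_return x 0)).1, ?_,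
    (Nat.find_spec (t.exists_return x 0)).2, fun j hj hjr hA => ?_⟩
  · unfold S; congr
  · exact Nat.find_min (t.exists_return x 0) hjr ⟨hj, hA⟩

/-- the `n`-th visit time. -/
noncomputable def R (n : ℕ) (z : G) : ℕ := Nat.nth (fun i : ℕ => t.f (z + i) = true) n

lemma infinite_visits {z : G} (hz : z ∈ t.G0) : {i : ℕ | t.f (z + i) = true}.Infinite := by
  apply Set.infinite_of_forall_exists_gt
  intro N
  obtain ⟨r, hr, hA⟩ := t.exists_return (t.pr z) N
  rw [t.iter_pr hz, t.pr_mem_A (t.G0_add_nat hz r)] at hA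
  exact ⟨r, hA, hr⟩

lemma iter_S {S : t.X → t.X} (hS : t.IsRet S) {z : G} (hz : z ∈ t.G0) (hf : t.f z = true) (n : ℕ) :
    S^[n] (t.pr z) = t.pr (z + t.R n z) := by
  have hinf := t.infinite_visits hz
  induction n with
  | zero =>
    have : t.R 0 z = 0 := Nat.nth_zero_of_zero (by simpa using hf)
    simp [this]
  | succ n ih =>
    rw [Function.iterate_succ_apply', ih]
    have ha : t.f (z + t.R n z) = true := Nat.nth_mem_of_infinite hinf n
    have hz' := t.G0_add_nat hz (t.R n z)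
    obtain ⟨r, hr0, hr1, hr2, hr3⟩ := hS _ ((t.pr_mem_A hz').2 ha)
    rw [t.iter_pr hz', t.pr_mem_A (t.G0_add_nat hz' r)] at hr2
    rw [hr1, t.iter_pr hz']
    have hR : t.R (n + 1) z = t.R n z + r := by
      apply le_antisymm
      · by_contra hlt
        push Not at hlt
        have := Nat.le_nth_of_lt_nth_succ (p := fun i : ℕ => t.f (z + i) = true) hlt
          (by simpa [add_assoc] using hr2)
        change t.R n z + r ≤ t.R n z at this
        omega
      · by_contra hlt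
        push Not at hlt
        have h1 : t.R n z < t.R (n + 1) z := Nat.nth_strictMono hinf (Nat.lt_succ_self n)
        have h2 : t.f (z + t.R (n + 1) z) = true := Nat.nth_mem_of_infinite hinf (n + 1)
        apply hr3 (t.R (n + 1) z - t.R n z) (by omega) (by omega)
        rw [t.iter_pr hz', t.pr_mem_A (t.G0_add_nat hz' _), add_assoc, ← Nat.cast_add,
          Nat.add_sub_cancel' h1.le]
        exact h2
    rw [hR]; congr 1; push_cast; ring

end Toep

end Pool.Agent.MP_1dc7bd_an
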