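import Mathlib
import Pool.Agent.MP_1dc7bd_an.Toeplitz

/-!
The period doubling system: rigid, with a non-rigid first return map.
-/

set_option autoImplicit false

open Filter Topology MeasureTheory Set
open scoped symmDiff ENNReal

namespace Pool.Agent.MP_1dc7bd_an

noncomputable def f0 (z : G) : Bool := decide (Even z.valuation)

lemma val_add_of_norm_lt {z y : G} (h : ‖y‖ < ‖z‖) : (z + y).valuation = z.valuation := by
  have h1 : ‖z + y‖ = ‖z‖ := by
    rw [PadicInt.norm_add_eq_max_of_ne h.ne', max_eq_left h.le]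
  have hz : z ≠ 0 := by
    intro h0; rw [h0, norm_zero] at h; exact absurd h (not_lt.2 (norm_nonneg _))
  have hzy : z + y ≠ 0 := by
    intro h0; rw [h0, norm_zero] at h1; exact hz (norm_eq_zero.1 h1.symm)
  rw [PadicInt.norm_eq_zpow_neg_valuation hz, PadicInt.norm_eq_zpow_neg_valuation hzy] at h1
  have := zpow_right_injective₀ (by norm_num) (by norm_num) h1
  omega

lemma f0_eventually {z : G} (hz : z ≠ 0) : ∀ᶠ w in 𝓝 z, f0 w = f0 z := by
  have : Metric.ball z ‖z‖ ∈ 𝓝 z := Metric.ball_mem_nhds z (norm_pos_iff.2 hz)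
  filter_upwards [this] with w hw
  rw [Metric.mem_ball, dist_eq_norm] at hw
  have := val_add_of_norm_lt hw
  rw [add_sub_cancel] at this
  simp [f0, this]

lemma measurable_f0 : Measurable f0 := by
  apply measurable_of_continuousOn_compl_singleton 0
  intro z hz
  apply ContinuousAt.continuousWithinAt
  exact tendsto_const_nhds.congr' ((f0_eventually hz).mono fun w hw => hw.symm)

def O : Set G := {z | ‖z‖ = 1}

lemma f0_of_mem_O {z : G} (hz : z ∈ O) : f0 z = true := by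
  have hz' : ‖z‖ = 1 := hz
  have h0 : z ≠ 0 := by
    intro h0; rw [h0, norm_zero] at hz'; exact zero_ne_one hz'
  rw [PadicInt.norm_eq_zpow_neg_valuation h0] at hz'
  have h2 : ((2 : ℕ) : ℝ) ^ (-(z.valuation : ℤ)) = ((2 : ℕ) : ℝ) ^ (0 : ℤ) := by simpa using hz'
  have := zpow_right_injective₀ (by norm_num) (by norm_num) h2
  have h3 : z.valuation = 0 := by omega
  simp [f0, h3]

lemma add_mem_O {z y : G} (hz : z ∈ O) (hy : ‖y‖ < 1) : z + y ∈ O := by
  have hz' : ‖z‖ = 1 := hz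
  change ‖z + y‖ = 1
  rw [PadicInt.norm_add_eq_max_of_ne (by rw [hz']; exact hy.ne'), hz', max_eq_left hy.le]

lemma one_mem_O : (1 : G) ∈ O := norm_one

lemma isOpen_O : IsOpen O := by
  rw [Metric.isOpen_iff]
  intro z hz
  refine ⟨1, one_pos, fun w hw => ?_⟩
  rw [Metric.mem_ball, dist_eq_norm] at hw
  simpa using add_mem_O hz hw

lemma H_O_ne : H O ≠ 0 := isOpen_O.measure_ne_zero H ⟨1, one_mem_O⟩

lemma gap (z : G) : f0 z = true ∨ f0 (z + 1) = true := by
  rcases (PadicInt.norm_le_one z).eq_or_lt with h | h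
  · exact Or.inl (f0_of_mem_O h)
  · right
    rw [add_comm]
    exact f0_of_mem_O (add_mem_O one_mem_O h)

noncomputable def pd : Toep where
  f := f0
  meas := measurable_f0
  ae := by
    have h : ∀ᵐ z ∂H, z ∉ ({0} : Set G) := measure_eq_zero_iff_ae_notMem.1 (measure_singleton 0)
    filter_upwards [h] with z hz
    exact ⟨f0 z, f0_eventually hz⟩
  pos := fun h => H_O_ne (measure_mono_null (fun z hz => f0_of_mem_O hz) h)

lemma dvd_iff_norm (k : ℕ) (y : G) : (2 : G) ^ k ∣ y ↔ ‖y‖ ≤ (2 : ℝ) ^ (-(k : ℤ)) := by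
  have := PadicInt.norm_le_pow_iff_mem_span_pow y k
  rw [Ideal.mem_span_singleton] at this
  simpa using this.symm

lemma f0_add {k : ℕ} {y m : G} (hm : (2 : G) ^ k ∣ m) (hy : ¬ (2 : G) ^ k ∣ y) :
    f0 (y + m) = f0 y := by
  rw [dvd_iff_norm] at hm hy
  have := val_add_of_norm_lt (lt_of_le_of_lt hm (not_le.1 hy))
  simp [f0, this]

lemma exists_l0 (z : G) (k : ℕ) : ∃ l : ℕ, l < 2 ^ k ∧ (2 : G) ^ k ∣ z + l := by
  refine ⟨(-z).appr k, PadicInt.appr_lt _ _, ?_⟩
  have := PadicInt.appr_spec k (-z)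
  rw [Ideal.mem_span_singleton] at this
  have h2 : z + ((-z).appr k : ℕ) = -(-z - ((-z).appr k : ℕ)) := by ring
  rw [h2, dvd_neg]
  simpa using this

lemma int_dvd_of_dvd {k : ℕ} {a : ℤ} (h : (2 : G) ^ k ∣ (a : G)) : (2 : ℤ) ^ k ∣ a := by
  have := (PadicInt.pow_p_dvd_int_iff (p := 2) k a).1 (by simpa using h)
  simpa using this

lemma l0_unique {z : G} {k l l' : ℕ} (hl : l < 2 ^ k) (hl' : l' < 2 ^ k)
    (h : (2 : G) ^ k ∣ z + l) (h' : (2 : G) ^ k ∣ z + l') : l = l' := by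
  have h1 : (2 : G) ^ k ∣ (((l : ℤ) - l' : ℤ) : G) := by
    have := dvd_sub h h'
    convert this using 1
    push_cast; ring
  have h2 := int_dvd_of_dvd h1
  have h3 : (l : ℤ) < 2 ^ k := by exact_mod_cast hl
  have h4 : (l' : ℤ) < 2 ^ k := by exact_mod_cast hl'
  have h5 : (l : ℤ) - l' = 0 := Int.eq_zero_of_abs_lt_dvd h2 (by rw [abs_lt]; constructor <;> omega)
  omega

noncomputable def g (m : ℕ) (z : G) : ℕ := Nat.count (fun i : ℕ => f0 (z + i) = true) m

def ind (b : Bool) : ℕ := if b = true then 1 else 0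

lemma ind_le (b : Bool) : ind b ≤ 1 := by cases b <;> simp [ind]

lemma ind_inj {b c : Bool} (h : ind b = ind c) : b = c := by
  cases b <;> cases c <;> simp_all [ind]

lemma g_succ (m : ℕ) (z : G) : g (m + 1) z = g m z + ind (f0 (z + m)) := by
  simp [g, Nat.count_succ, ind]

lemma g_eq_sum (m : ℕ) (z : G) : g m z = ∑ l ∈ Finset.range m, ind (f0 (z + l)) := by
  induction m with
  | zero => simp [g]
  | succ m ih => rw [g_succ, Finset.sum_range_succ, ih]

lemma g_add (a b : ℕ) (z : G) : g (a + b) z = g a z + g b (z + a) := by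
  unfold g
  rw [Nat.count_add]
  congr 2
  funext i
  rw [Nat.cast_add, add_assoc]

lemma measurable_g (m : ℕ) : Measurable (g m) := by
  induction m with
  | zero => exact measurable_const (a := 0)
  | succ m ih =>
    have : g (m + 1) = fun z => g m z + ind (f0 (z + m)) := funext (g_succ m)
    rw [this]
    exact ih.add ((measurable_of_countable ind).comp (measurable_f0.comp (measurable_add_const _)))

lemma g_gap (m : ℕ) (z : G) : g m z + 1 ≤ g (m + 2) z := by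
  rw [g_succ, g_succ]
  rcases gap (z + m) with h | h
  · rw [h]; simp [ind]
  · have : z + ((m + 1 : ℕ) : G) = z + m + 1 := by push_cast; ring
    rw [this, h]; simp [ind]

lemma g_step {k m l0 : ℕ} {z : G} (hm : (2 : G) ^ k ∣ (m : G)) (hl0 : l0 < 2 ^ k)
    (h0 : (2 : G) ^ k ∣ z + l0) :
    g m (z + (2 : G) ^ k) + ind (f0 (z + l0)) = g m z + ind (f0 (z + l0 + m)) := by
  have h1 := g_add (2 ^ k) m z
  have h2 := g_add m (2 ^ k) z
  rw [add_comm (2 ^ k) m, h2] at h1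
  have h3 : g (2 ^ k) (z + m) + ind (f0 (z + l0)) = g (2 ^ k) z + ind (f0 (z + l0 + m)) := by
    rw [g_eq_sum, g_eq_sum, ← Finset.add_sum_erase _ _ (Finset.mem_range.2 hl0),
      ← Finset.add_sum_erase _ _ (Finset.mem_range.2 hl0)]
    have h4 : ∑ l ∈ (Finset.range (2 ^ k)).erase l0, ind (f0 (z + m + l)) =
        ∑ l ∈ (Finset.range (2 ^ k)).erase l0, ind (f0 (z + l)) := by
      apply Finset.sum_congr rfl
      intro l hl
      rw [Finset.mem_erase, Finset.mem_range] at hl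
      have : ¬ (2 : G) ^ k ∣ z + l := fun h => hl.1 (l0_unique hl.2 hl0 h h0)
      rw [add_right_comm, f0_add hm this]
    rw [h4, add_right_comm z (m : G) (l0 : G)]
    ring
  have h5 : ((2 ^ k : ℕ) : G) = (2 : G) ^ k := by push_cast; rfl
  rw [h5] at h1
  omega

lemma val_pow_mul (k : ℕ) (c : G) : ((2 : G) ^ k * (1 + 2 * c)).valuation = k := by
  have h1 : ‖2 * c‖ < ‖(1 : G)‖ := by
    rw [norm_mul, norm_one]
    exact mul_lt_one_of_nonneg_of_lt_one_left (norm_nonneg _) norm_two_lt (PadicInt.norm_le_one c)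
  have h2 := val_add_of_norm_lt h1
  have h3 : (1 + 2 * c : G) ≠ 0 := by
    intro h0
    have : 2 * c = -1 := by linear_combination h0
    rw [this, norm_neg] at h1
    exact lt_irrefl _ h1
  have h4 := PadicInt.valuation_p_pow_mul (p := 2) k (1 + 2 * c) h3
  simp only [Nat.cast_ofNat] at h4
  rw [h4, h2]; simp

lemma four {k s : ℕ} {z0 : G} (h0 : (2 : G) ^ k ∣ z0) :
    ∃ i : ℕ, i < 4 ∧ f0 (z0 + i * (2 : G) ^ k + ((2 ^ k * (2 * s + 1) : ℕ) : G)) ≠
      f0 (z0 + i * (2 : G) ^ k) := by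
  obtain ⟨w, rfl⟩ := h0
  obtain ⟨i, hi, c, hc⟩ := exists_l0 (w - 2) 2
  refine ⟨i, by simpa using hi, ?_⟩
  have e1 : (2 : G) ^ k * w + i * (2 : G) ^ k = (2 : G) ^ (k + 1) * (1 + 2 * c) := by
    linear_combination ((2 : G) ^ k) * hc
  have e2 : (2 : G) ^ k * w + i * (2 : G) ^ k + ((2 ^ k * (2 * s + 1) : ℕ) : G) =
      (2 : G) ^ k * (1 + 2 * (s + 1 + 2 * c)) := by
    push_cast
    linear_combination ((2 : G) ^ k) * hc
  rw [e2, e1]
  simp only [f0, val_pow_mul, Nat.even_add_one]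
  by_cases h : Even k <;> simp [h]

lemma exists_change (k s : ℕ) (z : G) :
    ∃ i : ℕ, 1 ≤ i ∧ i ≤ 4 ∧
      (g (2 ^ k * (2 * s + 1)) (z + i * (2 : G) ^ k) = g (2 ^ k * (2 * s + 1)) z + 1 ∨
       g (2 ^ k * (2 * s + 1)) (z + i * (2 : G) ^ k) + 1 = g (2 ^ k * (2 * s + 1)) z) := by
  set m := 2 ^ k * (2 * s + 1) with hm_def
  obtain ⟨l0, hl0, h0⟩ := exists_l0 z k
  have hm : (2 : G) ^ k ∣ (m : G) := ⟨(2 * s + 1 : ℕ), by rw [hm_def]; push_cast; ring⟩
  let a : ℕ → ℕ := fun i => g m (z + i * (2 : G) ^ k)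
  let x : ℕ → ℕ := fun i => ind (f0 (z + l0 + i * (2 : G) ^ k))
  let y : ℕ → ℕ := fun i => ind (f0 (z + l0 + i * (2 : G) ^ k + m))
  have hstep : ∀ i, a (i + 1) + x i = a i + y i := by
    intro i
    have h1 : (2 : G) ^ k ∣ z + i * (2 : G) ^ k + l0 := by
      rw [add_right_comm]
      exact dvd_add h0 (Dvd.intro_left _ rfl)
    have := g_step hm hl0 h1
    simp only [a, x, y]
    rw [add_right_comm z (l0 : G)]
    convert this using 3
    push_cast; ring
  have hx : ∀ i, x i ≤ 1 := fun i => ind_le _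
  have hy : ∀ i, y i ≤ 1 := fun i => ind_le _
  obtain ⟨i, hi, hne⟩ := four (s := s) h0
  have hne' : y i ≠ x i := fun h => hne (ind_inj h)
  have ha0 : a 0 = g m z := by simp [a]
  have s0 := hstep 0
  have s1 := hstep 1
  have s2 := hstep 2
  have s3 := hstep 3
  have := hx 0; have := hx 1; have := hx 2; have := hx 3
  have := hy 0; have := hy 1; have := hy 2; have := hy 3
  have key : (a 1 = a 0 + 1 ∨ a 1 + 1 = a 0) ∨ (a 2 = a 0 + 1 ∨ a 2 + 1 = a 0) ∨
      (a 3 = a 0 + 1 ∨ a 3 + 1 = a 0) ∨ (a 4 = a 0 + 1 ∨ a 4 + 1 = a 0) := by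
    norm_num at s0 s1 s2 s3
    interval_cases i <;> omega
  rw [ha0] at key
  rcases key with h | h | h | h
  · exact ⟨1, by norm_num, by norm_num, h⟩
  · exact ⟨2, by norm_num, by norm_num, h⟩
  · exact ⟨3, by norm_num, by norm_num, h⟩
  · exact ⟨4, by norm_num, by norm_num, h⟩

lemma infinite_visits0 (z : G) : {i : ℕ | f0 (z + i) = true}.Infinite := by
  apply Set.infinite_of_forall_exists_gt
  intro N
  rcases gap (z + ((N + 1 : ℕ) : G)) with h | h
  · exact ⟨N + 1, h, by omega⟩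
  · refine ⟨N + 2, ?_, by omega⟩
    have : z + ((N + 2 : ℕ) : G) = z + ((N + 1 : ℕ) : G) + 1 := by push_cast; ring
    change f0 _ = true
    rw [this]; exact h

lemma le_R_iff (z : G) (n a : ℕ) : a ≤ pd.R n z ↔ g a z ≤ n :=
  (Nat.count_le_iff_le_nth (infinite_visits0 z)).symm

lemma g_R (z : G) (n : ℕ) : g (pd.R n z) z = n :=
  Nat.count_nth_of_infinite (infinite_visits0 z) n

def Bm (n j : ℕ) : Set G := {z | z ∈ O ∧ (g (8 * (j + 1)) z = n + 1 ∨ g (8 * (j + 1)) z + 1 = n)}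

def Bad (n : ℕ) : Set G := {z | f0 z = true ∧ ¬ 8 ∣ pd.R n z}

lemma Bm_R {n j : ℕ} {z : G} (hz : z ∈ Bm n j) :
    8 * (j + 1) ≤ pd.R n z + 2 ∧ pd.R n z ≤ 8 * (j + 1) + 3 ∧ pd.R n z ≠ 8 * (j + 1) := by
  rcases hz.2 with h | h
  · have h1 : ¬ 8 * (j + 1) ≤ pd.R n z := by rw [le_R_iff]; omega
    have h2 : 8 * j + 6 ≤ pd.R n z := by
      rw [le_R_iff]
      have := g_gap (8 * j + 6) z
      have e : 8 * j + 6 + 2 = 8 * (j + 1) := by ring
      rw [e] at this
      omega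
    omega
  · have h1 : 8 * (j + 1) + 1 ≤ pd.R n z := by
      rw [le_R_iff, g_succ]
      have := ind_le (f0 (z + ((8 * (j + 1) : ℕ) : G)))
      omega
    have h2 : ¬ 8 * (j + 1) + 2 + 2 ≤ pd.R n z := by
      rw [le_R_iff]
      have := g_gap (8 * (j + 1)) z
      have := g_gap (8 * (j + 1) + 2) z
      omega
    omega

lemma measurableSet_Bm (n j : ℕ) : MeasurableSet (Bm n j) := by
  have : Bm n j = O ∩ (g (8 * (j + 1))) ⁻¹' {a | a = n + 1 ∨ a + 1 = n} := rfl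
  rw [this]
  exact isOpen_O.measurableSet.inter (measurable_g _ (MeasurableSet.of_discrete))

lemma tsum_Bm_le (n : ℕ) : ∑' j, H (Bm n j) ≤ H (Bad n) := by
  rw [← measure_iUnion _ (measurableSet_Bm n)]
  · apply measure_mono
    rintro z hz
    rw [mem_iUnion] at hz
    obtain ⟨j, hj⟩ := hz
    have := Bm_R hj
    exact ⟨f0_of_mem_O hj.1, by omega⟩
  · intro j j' hjj'
    rw [Function.onFun, Set.disjoint_left]
    intro z hz hz'
    have := Bm_R hz
    have := Bm_R hz'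
    omega

lemma Gm_le (n j : ℕ) : H {z | z ∈ O ∧ pd.R n z = 8 * (j + 1)} ≤ 4 * H (Bm n j) := by
  obtain ⟨k, u, hu, hm⟩ := Nat.exists_eq_two_pow_mul_odd (n := 8 * (j + 1)) (by omega)
  obtain ⟨s, rfl⟩ := hu
  have hk : k ≠ 0 := by
    rintro rfl
    omega
  have hsub : {z | z ∈ O ∧ pd.R n z = 8 * (j + 1)} ⊆
      ⋃ i ∈ Finset.Icc 1 4, (fun z : G => z + (i : ℕ) * (2 : G) ^ k) ⁻¹' Bm n j := by
    rintro z ⟨hzO, hzR⟩
    obtain ⟨i, hi1, hi4, hi⟩ := exists_change k s z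
    have hg := g_R z n
    rw [hzR] at hg
    rw [← hm, hg] at hi
    simp only [mem_iUnion, Finset.mem_Icc, mem_preimage]
    refine ⟨i, ⟨hi1, hi4⟩, add_mem_O hzO ?_, hi⟩
    rw [norm_mul, norm_pow]
    exact mul_lt_one_of_nonneg_of_lt_one_right (PadicInt.norm_le_one _) (by positivity)
      (pow_lt_one₀ (norm_nonneg _) norm_two_lt hk)
  refine (measure_mono hsub).trans ((measure_biUnion_finset_le _ _).trans ?_)
  simp only [measure_preimage_add_right, Finset.sum_const, Nat.card_Icc]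
  simp

lemma O_le (n : ℕ) (hn : 0 < n) : H O ≤ 5 * H (Bad n) := by
  have hsub : O ⊆ Bad n ∪ ⋃ j, {z | z ∈ O ∧ pd.R n z = 8 * (j + 1)} := by
    intro z hz
    by_cases h : 8 ∣ pd.R n z
    · right
      obtain ⟨c, hc⟩ := h
      have h1 : 1 ≤ pd.R n z := by
        rw [le_R_iff, g_succ]
        have := ind_le (f0 (z + ((0 : ℕ) : G)))
        have : g 0 z = 0 := by simp [g]
        omega
      rw [mem_iUnion]
      exact ⟨c - 1, hz, by omega⟩
    · left; exact ⟨f0_of_mem_O hz, h⟩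
  calc H O ≤ H (Bad n) + ∑' j, H {z | z ∈ O ∧ pd.R n z = 8 * (j + 1)} :=
        (measure_mono hsub).trans ((measure_union_le _ _).trans
          (add_le_add le_rfl (measure_iUnion_le _)))
    _ ≤ H (Bad n) + ∑' j, 4 * H (Bm n j) :=
        add_le_add le_rfl (ENNReal.tsum_le_tsum (Gm_le n))
    _ ≤ H (Bad n) + 4 * H (Bad n) := by
        rw [ENNReal.tsum_mul_left]
        gcongr
        exact tsum_Bm_le n
    _ = 5 * H (Bad n) := by ring

def Bc (c : ℕ) : Set pd.X := pd.A ∩ {x | (2 : G) ^ 3 ∣ (x : Y).1 + c}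

lemma measurableSet_Bc (c : ℕ) : MeasurableSet (Bc c) := by
  apply pd.isClopen_A.isOpen.measurableSet.inter
  simp only [dvd_iff_norm]
  exact (isClosed_le (by fun_prop) continuous_const).measurableSet

lemma Bad_le {S : pd.X → pd.X} (hS : pd.IsRet S) (n : ℕ) :
    H (Bad n) ≤ ∑ c ∈ Finset.range 8, pd.mu ((pd.A ∩ S^[n] ⁻¹' Bc c) ∆ Bc c) := by
  have h1 : H (Bad n) ≤ H (⋃ c ∈ Finset.range 8, pd.pr ⁻¹' ((pd.A ∩ S^[n] ⁻¹' Bc c) ∆ Bc c)) := by
    apply measure_mono_ae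
    filter_upwards [pd.G0_ae] with z hz hzB
    obtain ⟨c, hc, hd⟩ := exists_l0 z 3
    change z ∈ ⋃ c ∈ Finset.range 8, pd.pr ⁻¹' ((pd.A ∩ S^[n] ⁻¹' Bc c) ∆ Bc c)
    simp only [mem_iUnion, Finset.mem_range, mem_preimage, mem_symmDiff]
    refine ⟨c, by simpa using hc, Or.inr ⟨⟨(pd.pr_mem_A hz).2 hzB.1, ?_⟩, ?_⟩⟩
    · change (2 : G) ^ 3 ∣ (pd.pr z : Y).1 + c
      rw [pd.pr_val hz]; exact hd
    · rintro ⟨-, h⟩
      rw [mem_preimage, pd.iter_S hS hz hzB.1] at h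
      have h2 : (2 : G) ^ 3 ∣ (pd.pr (z + pd.R n z) : Y).1 + c := h.2
      rw [pd.pr_val (pd.G0_add_nat hz _)] at h2
      have h3 : (2 : G) ^ 3 ∣ ((pd.R n z : ℤ) : G) := by
        have := dvd_sub h2 hd
        convert this using 1
        simp [Toep.psi]
      have h4 := int_dvd_of_dvd h3
      apply hzB.2
      have h5 : ((8 : ℕ) : ℤ) ∣ (pd.R n z : ℤ) := by simpa using h4
      exact_mod_cast h5
  refine h1.trans ((measure_biUnion_finset_le _ _).trans (Finset.sum_le_sum fun c _ => ?_))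
  exact Measure.le_map_apply pd.measurable_pr.aemeasurable _

lemma not_rigid {S : pd.X → pd.X} (hS : pd.IsRet S) :
    ¬ ∃ n : ℕ → ℕ, StrictMono n ∧ (∀ k, 0 < n k) ∧
      ∀ B : Set pd.X, MeasurableSet B → B ⊆ pd.A →
        Tendsto (fun k => pd.mu ((pd.A ∩ S^[n k] ⁻¹' B) ∆ B)) atTop (𝓝 0) := by
  rintro ⟨n, -, hpos, h⟩
  have h1 : Tendsto (fun k => ∑ c ∈ Finset.range 8, pd.mu ((pd.A ∩ S^[n k] ⁻¹' Bc c) ∆ Bc c))
      atTop (𝓝 0) := by
    have := tendsto_finsetSum (Finset.range 8)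
      (fun c _ => h (Bc c) (measurableSet_Bc c) inter_subset_left)
    simpa using this
  have h2 : Tendsto (fun k => 5 * ∑ c ∈ Finset.range 8, pd.mu ((pd.A ∩ S^[n k] ⁻¹' Bc c) ∆ Bc c))
      atTop (𝓝 0) := by
    have := ENNReal.Tendsto.const_mul (a := 5) h1 (Or.inr (by norm_num))
    simpa using this
  have h3 : H O ≤ 0 := by
    apply ge_of_tendsto' h2
    intro k
    refine (O_le (n k) (hpos k)).trans ?_
    gcongr
    exact Bad_le hS _
  exact H_O_ne (le_antisymm h3 (by simp))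

end Pool.Agent.MP_1dc7bd_an
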